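import Mathlib
import Pool.Agent.H26.Her4

set_option autoImplicit false

open Filter Topology ContinuousLinearMap

namespace Pool.Agent.Results.MP_e07d6f_an.James

section

variable {A : Type} [NormedAddCommGroup A] [NormedSpace ℂ A] (mul : A → A → A)

def IsMod {X : Type} [NormedAddCommGroup X] [NormedSpace ℂ X] (act : A → X → X) : Prop :=
  IsBoundedBilinearMap ℂ (fun p : A × X => act p.1 p.2) ∧
    ∀ a b x, act (mul a b) x = act a (act b x)

def IsHom {X Y : Type} (aX : A → X → X) (aY : A → Y → Y) (f : X → Y) : Prop :=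
  ∀ a x, f (aX a x) = aY a (f x)

def Proj {P : Type} [NormedAddCommGroup P] [NormedSpace ℂ P] (act : A → P → P) : Prop :=
  ∀ (X Y : Type) [NormedAddCommGroup X] [NormedSpace ℂ X] [CompleteSpace X]
    [NormedAddCommGroup Y] [NormedSpace ℂ Y] [CompleteSpace Y] (aX : A → X → X) (aY : A → Y → Y),
    IsMod mul aX → IsMod mul aY → ∀ σ : X →L[ℂ] Y, IsHom aX aY σ →
      (∃ τ : Y →L[ℂ] X, ∀ y, σ (τ y) = y) → ∀ φ : P →L[ℂ] Y, IsHom act aY φ →
        ∃ ψ : P →L[ℂ] X, IsHom act aX ψ ∧ ∀ p, σ (ψ p) = φ p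

def Hereditary : Prop :=
  ∀ (I : Submodule ℂ A) (h : ∀ a, ∀ x ∈ I, mul a x ∈ I), IsClosed (I : Set A) →
    Proj mul fun a (x : I) => (⟨mul a x, h a x x.2⟩ : I)

lemma Hereditary.proj (h : Hereditary mul) : Proj mul mul := by
  intro X Y _ _ _ _ _ _ aX aY h1 h2 σ h3 h4 φ h5
  obtain ⟨ψ, h6, h7⟩ := h ⊤ (fun _ _ _ => trivial) isClosed_univ X Y aX aY h1 h2 σ h3 h4
    (φ.comp (Submodule.subtypeL _)) fun a x => h5 a x
  exact ⟨ψ.comp ((ContinuousLinearMap.id ℂ A).codRestrict ⊤ fun _ => trivial),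
    fun a x => h6 a ⟨x, trivial⟩, fun p => h7 ⟨p, trivial⟩⟩

end

section

variable (E : Type) [NormedAddCommGroup E] [NormedSpace ℂ E]

def K : Type := compactOperator (RingHom.id ℂ) E E

noncomputable instance : NormedAddCommGroup (K E) :=
  inferInstanceAs (NormedAddCommGroup (compactOperator (RingHom.id ℂ) E E))

noncomputable instance : NormedSpace ℂ (K E) :=
  inferInstanceAs (NormedSpace ℂ (compactOperator (RingHom.id ℂ) E E))

def comp (a b : K E) : K E := ⟨a.1.comp b.1, IsCompactOperator.comp_clm a.2 b.1⟩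

def compOp (a b : K E) : K E := comp E b a

end

open H26 Her1 Her2 Her4

instance (E : Type) [NormedAddCommGroup E] [NormedSpace ℂ E] [CompleteSpace E] :
    CompleteSpace (K E) := inferInstanceAs (CompleteSpace (Her1.K E))

lemma not_proj {F : Type} [NormedAddCommGroup F] [NormedSpace ℂ F] [CompleteSpace F] {e : ℕ → F}
    {ε : ℕ → F →L[ℂ] ℂ} {S : F →L[ℂ] ℂ} {C : ℝ} (J : James e ε S C) {A : Type}
    [NormedAddCommGroup A] [NormedSpace ℂ A] (mul : A → A → A) (θ : A →L[ℂ] K F)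
    (hθ : ∀ a b, (θ (mul a b)).1 = (θ b).1.comp (θ a).1) (a : ℕ → A) (M : ℝ) (hM : ∀ n, ‖a n‖ ≤ M)
    (ha : ∀ n, (θ (a n)).1 = Q e ε n) (ha' : ∀ m n, m ≤ n → mul (a m) (a n) = a m) :
    ¬ Proj mul mul := fun h => by
  let ι : K F →L[ℂ] F →L[ℂ] F := Submodule.subtypeL _
  let μ : K F →L[ℂ] (F →L[ℂ] F) →L[ℂ] K F := mulK
  obtain ⟨X, _, _, _, act, σ, τ, h1, h2, h3, h4⟩ := no_lift J ι (fun b => b.2) (fun _ => le_rfl) μ
    (fun _ _ => rfl) Subtype.val_injective
  obtain ⟨ψ, h5, h6⟩ := h X (K F) (fun a u => act u (ι (θ a))) (fun a y => μ y (ι (θ a)))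
    ⟨(act.flip.comp (ι.comp θ)).isBoundedBilinearMap, fun a b u =>
      (congrArg (act u) (hθ a b)).trans (h1 _ _ _)⟩
    ⟨(μ.flip.comp (ι.comp θ)).isBoundedBilinearMap, fun a b y => Subtype.ext
      (congrArg y.1.comp (hθ a b))⟩ σ (fun a u => h2 _ _) ⟨τ, h3⟩ θ
    fun a b => Subtype.ext (hθ a b)
  refine h4 (fun n => ψ (a n)) (‖ψ‖ * M) (fun n => ψ.le_opNorm_of_le (hM n)) (fun m n hmn => ?_)
    fun n => by rw [h6]; exact ha n
  rw [← ha, ← ha' m n hmn, h5, ha' m n hmn]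
  rfl

lemma QQ {F : Type} [NormedAddCommGroup F] [NormedSpace ℂ F] {e : ℕ → F} {ε : ℕ → F →L[ℂ] ℂ}
    (h : ∀ l m, ε l (e m) = if l = m then 1 else 0) {m n : ℕ} (hmn : m ≤ n) :
    (Q e ε n).comp (Q e ε m) = Q e ε m ∧ (Q e ε m).comp (Q e ε n) = Q e ε m := by
  have h1 : ∀ L m, Q e ε L (e m) = if m < L then e m else 0 := fun L m => by simp [Q, h, ite_smul]
  have h2 : ∀ L y, Q e ε L y = ∑ l ∈ Finset.range L, ε l y • e l := fun L y => by simp [Q]
  constructor <;> ext y <;> rw [comp_apply]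
  · rw [h2 m, map_sum]
    exact Finset.sum_congr rfl fun l hl => by
      rw [map_smul, h1, if_pos ((Finset.mem_range.1 hl).trans_le hmn)]
  · rw [h2 n, map_sum, h2 m, ← Finset.sum_subset (Finset.range_subset_range.2 hmn)
      fun l _ hl => by rw [map_smul, h1, if_neg (mt Finset.mem_range.2 hl), smul_zero]]
    exact Finset.sum_congr rfl fun l hl => by rw [map_smul, h1, if_pos (Finset.mem_range.1 hl)]

theorem result :
    (∃ (E : Type) (_ : NormedAddCommGroup E) (_ : NormedSpace ℂ E) (_ : CompleteSpace E),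
      ¬ Hereditary (comp E) ∧ ¬ Proj (comp E) (comp E)) ∧
    ∃ (E : Type) (_ : NormedAddCommGroup E) (_ : NormedSpace ℂ E) (_ : CompleteSpace E),
      ¬ Hereditary (compOp E) ∧ ¬ Proj (compOp E) (compOp E) := by
  obtain ⟨E, _, _, _, d, co, S, J, h1, h2, h3⟩ := exists_J
  set ε : ℕ → (E →L[ℂ] ℂ) →L[ℂ] ℂ := fun l => apply ℂ ℂ (d l)
  let adj : (E →L[ℂ] E) →L[ℂ] (E →L[ℂ] ℂ) →L[ℂ] E →L[ℂ] ℂ := (compL ℂ E E ℂ).flip
  have hQ : ∀ n, adj (Q d co n) = Q co ε n := fun n => by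
    ext f x; simp [adj, Q, ε, mul_comm]
  have hc : ∀ a : K E, IsCompactOperator (adj a.1) := fun a =>
    isCompactOperator_of_tendsto ((adj.continuous.tendsto _).comp (approx _ h2 h3 a.1 a.2))
      (Eventually.of_forall fun L => (hQ L ▸ Q_compact co ε L).clm_comp (adj a.1))
  have l := not_proj J (comp E) ((adj.comp (Submodule.subtypeL _)).codRestrict
    (compactOperator (RingHom.id ℂ) _ _) hc) (fun _ _ => rfl) (fun n => ⟨_, Q_compact d co n⟩) 2
    (fun n => opNorm_le_bound _ zero_le_two (h2 n)) hQ fun m n h => Subtype.ext (QQ h1 h).2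
  have r := not_proj J (compOp _) (.id ℂ _) (fun _ _ => rfl) (fun n => ⟨_, Q_compact co ε n⟩) 6
    (fun n => opNorm_le_bound _ (by norm_num) fun y => by
      simpa [Q] using J.lo (fun j => j * n) (fun j => (j + 1) * n)
        (fun j => ⟨Nat.mul_le_mul_right _ (Nat.le_succ _), le_rfl⟩) 1 y)
    (fun _ => rfl) fun m n h => Subtype.ext (QQ J.bi h).1
  exact ⟨⟨E, inferInstance, inferInstance, inferInstance, fun h => l h.proj, l⟩,
    _, inferInstance, inferInstance, inferInstance, fun h => r h.proj, r⟩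

end Pool.Agent.Results.MP_e07d6f_an.James
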